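import Pool.Agent.H81.G0.EUW

/-!
# Theorem (H0): the loss of energy below the logarithm
-/

set_option autoImplicit false

open Finset Pool.Agent.H93 Pool.Agent.H6.N4D Pool.Agent.H93.GS Pool.Agent.H72.EN
open Pool.Agent.H81.GS Pool.Agent.H6.G9 Pool.Agent.H6.G0
open Pool.Agent.H81.G9 (GmU gmU sum_r eS)

namespace Pool.Agent.H81.G0

/-- small loss from small sums over sparse sequences of levels -/
lemma nearW {W : (ℕ → ℝ) → ℕ → ℕ → ℝ} {th C₀ CL CM CG ε : ℝ} {p₀ m₁ A : ℕ}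
    (hth : 0 < th) (hC₀ : 0 < C₀)
    (hCL : 0 < CL) (hCM : 0 < CM) (hCG : 0 < CG) (hε : 0 < ε) (hε1 : ε ≤ 1) (hA2 : 2 ≤ A)
    (hA : 480 ≤ ε * A) (hlev : LevW W th C₀ CL p₀ m₁) (hmn : MonC th CM)
    (hgm : GmU th CG p₀ A) (B : ℕ) (hB : 2 ≤ B) (mU : ℕ)
    (hU : ∀ (lam : ℕ → ℝ) (m n : ℕ), (∀ n, |lam n| ≤ 1) → mU ≤ m → 0 ≤ W lam m n) :
    ∃ (k₁ X₁ : ℕ), 3 ≤ X₁ ∧
      ∀ (X k₀ k : ℕ) (lam : ℕ → ℝ), X₁ ≤ X → Lio lam → k₁ ≤ k₀ → k₀ ≤ k →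
        (k : ℝ) ≤ 2 * Real.log X ^ (24 / 25 : ℝ) →
        (∀ (K : ℕ) (c : ℕ → ℕ), Chn B k₀ (2 * k) K c →
          ∑ i ∈ range K, EB.lg X (fun n => W lam (c i) n) ≤ eS ε C₀ B A * Real.log X) →
        te th lam X k₀ - ε ≤ te th lam X k := by
  have hBr : (2 : ℝ) ≤ B := by exact_mod_cast hB
  have hAr : (2 : ℝ) ≤ A := by exact_mod_cast hA2
  have hA0 : (0 : ℝ) < A := by linarith
  obtain ⟨η, hηd⟩ : ∃ η : ℝ, η = ε / (12000 * A) := ⟨_, rfl⟩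
  have hη0 : 0 < η := by rw [hηd]; positivity
  have hη1 : η ≤ 1 := by
    rw [hηd, div_le_one (by positivity)]
    linarith
  obtain ⟨D, hDd⟩ : ∃ D : ℝ, D = CL / η := ⟨_, rfl⟩
  have hD : 0 < D := by rw [hDd]; positivity
  obtain ⟨y, hy1, hy2', hy3'⟩ : ∃ y : ℕ, 1 ≤ y ∧ 6000 * D * CG / ε ≤ y ∧
      24000000 * D / ε ≤ y :=
    ⟨⌈6000 * D * CG / ε⌉₊ + ⌈24000000 * D / ε⌉₊ + 1, by omega, by
      have := Nat.le_ceil (6000 * D * CG / ε)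
      push_cast
      have h2 : (0 : ℝ) ≤ (⌈24000000 * D / ε⌉₊ : ℝ) := Nat.cast_nonneg _
      linarith, by
      have := Nat.le_ceil (24000000 * D / ε)
      push_cast
      have h2 : (0 : ℝ) ≤ (⌈6000 * D * CG / ε⌉₊ : ℝ) := Nat.cast_nonneg _
      linarith⟩
  have hy2 : 6000 * D * CG ≤ y * ε := by
    rwa [div_le_iff₀ hε] at hy2'
  have hy3 : 24000000 * D ≤ y * ε := by
    rwa [div_le_iff₀ hε] at hy3'
  obtain ⟨G, hGd⟩ : ∃ G : ℝ, G = 600 * D * (6 * CG + 6 * (A + 1)) +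
    (5400 + 1) * (2 * A * CM) := ⟨_, rfl⟩
  have hG : 0 < G := by rw [hGd]; positivity
  obtain ⟨X₀, hX₀, hlim⟩ := pf_LIM' (ε / (10 * G)) (by positivity)
  obtain ⟨V, v1, v2, v3, v4, v5, v6⟩ : ∃ V : ℕ, 2000 * y ≤ V ∧ 3500 ≤ V ∧ 100 * A ≤ V ∧
      m₁ ≤ V ∧ 1000 * (p₀ + 1) ≤ V ∧ mU ≤ V :=
    ⟨2000 * y + 3500 + 100 * A + m₁ + 1000 * (p₀ + 1) + mU, by omega, by omega, by omega,
      by omega, by omega, by omega⟩
  refine ⟨V, X₀, hX₀, ?_⟩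
  intro X k₀ k lam hX hlam hk₀ hk hkX hE
  have hX3 : 3 ≤ X := hX₀.trans hX
  have hY1 := log_ge hX3
  have hcore := coreW tel pf_HAR' Pool.Agent.H35.ENL.pf_GSM hth hC₀ hCL hCM hlev hmn lam X A B
    k₀ k hgm η (eS ε C₀ B A) hX3 hlam (by omega) hB hη0 hη1 (v2.trans hk₀) (v3.trans hk₀)
    (v4.trans hk₀) (v5.trans hk₀) hk (fun m n hm => hU lam m n (Lio_abs hlam) (by omega)) hE
  rw [← hDd] at hcore
  have hΦ := hlim X k hX hkX
  obtain ⟨Y, hYd⟩ : ∃ Y : ℝ, Y = Real.log X := ⟨_, rfl⟩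
  rw [← hYd] at hΦ hcore hY1
  have hY : 0 < Y := by linarith
  have hk1 : 1 ≤ k := by omega
  obtain ⟨Φ, hΦd⟩ : ∃ Φ : ℝ, Φ = ((k : ℝ) + 1) * (1 + Real.log (k + 1)) := ⟨_, rfl⟩
  rw [← hΦd] at hΦ
  have hk0r : (0 : ℝ) ≤ k := Nat.cast_nonneg _
  have hlog0 : 0 ≤ Real.log ((k : ℝ) + 1) := Real.log_nonneg (by linarith)
  have hΦk : (k : ℝ) + 1 ≤ Φ := by
    rw [hΦd]
    nlinarith
  have hΦ0 : 0 < Φ := by linarith
  -- the single terms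
  have t1 : 48 / (A : ℝ) ≤ ε / 10 := by
    rw [div_le_iff₀ hA0]
    linarith
  have t2 : 1200 * η * A = ε / 10 := by
    rw [hηd]
    field_simp
    norm_num
  have t3 : 1200 * B * (C₀ / η * eS ε C₀ B A) = ε / 10 := by
    unfold eS
    rw [← hηd]
    field_simp
    norm_num
  have t4 : 600 * (D * (CG / (k₀ : ℝ))) ≤ ε / 10 := by
    have hk₀0 : (0 : ℝ) < k₀ := by
      have : 0 < k₀ := by omega
      exact_mod_cast this
    have h1 : (y : ℝ) ≤ k₀ := by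
      have : y ≤ k₀ := by omega
      exact_mod_cast this
    have h2 : 600 * (D * (CG / (k₀ : ℝ))) = 600 * D * CG / k₀ := by ring
    rw [h2, div_le_iff₀ hk₀0]
    have h4 := mul_le_mul_of_nonneg_left h1 hε.le
    linarith
  have t5 : 600 * (D * (4000 * (1 / 2) ^ (k₀ / 2000))) ≤ ε / 10 := by
    have hy0 : (0 : ℝ) < y := by exact_mod_cast hy1
    have h1 : ((1 : ℝ) / 2) ^ (k₀ / 2000) ≤ 1 / y := by
      apply half_pow_le hy0
      have : y ≤ k₀ / 2000 := by omega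
      exact_mod_cast this
    have h2 : 600 * (D * (4000 * (1 / 2) ^ (k₀ / 2000))) ≤ 600 * (D * (4000 * (1 / y))) := by
      gcongr
    refine h2.trans ?_
    have h3 : 600 * (D * (4000 * (1 / (y : ℝ)))) = 2400000 * D / y := by ring
    rw [h3, div_le_iff₀ hy0]
    linarith
  have hGΦ : G * (Φ / Y) ≤ ε / 10 := by
    have h1 : Φ / Y ≤ ε / (10 * G) := by
      rw [div_le_iff₀ hY]; exact hΦ
    have h2 := mul_le_mul_of_nonneg_left h1 hG.le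
    refine h2.trans (le_of_eq ?_)
    field_simp
  have hAk : ((A * (2 * k) : ℕ) : ℝ) + 1 ≤ 2 * A * (k + 1) := by
    push_cast
    linarith
  have hl2k : 2 + Real.log ((2 * k : ℕ) : ℝ) ≤ 3 * (1 + Real.log (k + 1)) := by
    have hk' : (0 : ℝ) < k := by exact_mod_cast hk1
    push_cast
    rw [Real.log_mul (by norm_num) hk'.ne']
    have h1 : Real.log (k : ℝ) ≤ Real.log (k + 1) := Real.log_le_log hk' (by linarith)
    have h2 := Real.log_two_lt_d9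
    linarith
  have hl2k0 : 0 ≤ 2 + Real.log ((2 * k : ℕ) : ℝ) := by
    have : 0 ≤ Real.log ((2 * k : ℕ) : ℝ) := Real.log_natCast_nonneg _
    linarith
  have t6 : 600 * (D * ((CG * ((2 * k : ℕ) + 1) * (1 + Real.log (2 * k : ℕ)) +
      (2 * k : ℕ) * (3 * (A + 1))) / Y)) ≤ 600 * D * (6 * CG + 6 * (A + 1)) * (Φ / Y) := by
    have h1 : ((2 * k : ℕ) : ℝ) ≤ 2 * Φ := by
      push_cast
      linarith
    have h2 : CG * (((2 * k : ℕ) : ℝ) + 1) * (1 + Real.log ((2 * k : ℕ) : ℝ)) ≤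
        CG * (2 * ((k : ℝ) + 1)) * (3 * (1 + Real.log (k + 1))) := by
      have h3 : ((2 * k : ℕ) : ℝ) + 1 ≤ 2 * ((k : ℝ) + 1) := by
        push_cast
        linarith
      have h4 : 0 ≤ 1 + Real.log ((2 * k : ℕ) : ℝ) := by
        have : 0 ≤ Real.log ((2 * k : ℕ) : ℝ) := Real.log_natCast_nonneg _
        linarith
      have h5 : 1 + Real.log ((2 * k : ℕ) : ℝ) ≤ 3 * (1 + Real.log (k + 1)) := by linarith
      gcongr
    have h6 : CG * (2 * ((k : ℝ) + 1)) * (3 * (1 + Real.log (k + 1))) = 6 * CG * Φ := by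
      rw [hΦd]
      ring
    have h7 : ((2 * k : ℕ) : ℝ) * (3 * ((A : ℝ) + 1)) ≤ 2 * Φ * (3 * (A + 1)) := by gcongr
    have h8 : CG * (((2 * k : ℕ) : ℝ) + 1) * (1 + Real.log ((2 * k : ℕ) : ℝ)) +
        ((2 * k : ℕ) : ℝ) * (3 * ((A : ℝ) + 1)) ≤ (6 * CG + 6 * (A + 1)) * Φ := by linarith
    have h9 : 600 * (D * ((CG * ((2 * k : ℕ) + 1) * (1 + Real.log (2 * k : ℕ)) +
      (2 * k : ℕ) * (3 * (A + 1))) / Y)) ≤ 600 * (D * ((6 * CG + 6 * (A + 1)) * Φ / Y)) := by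
      gcongr
    refine h9.trans (le_of_eq ?_)
    ring
  have t7 : 1800 * (CM * ((A * (2 * k) : ℕ) + 1) / Y) *
      (2 + Real.log (2 * k : ℕ)) ≤ 5400 * (2 * A * CM) * (Φ / Y) := by
    have h1 : 1800 * (CM * ((A * (2 * k) : ℕ) + 1) / Y) *
        (2 + Real.log (2 * k : ℕ)) ≤ 1800 * (CM * (2 * A * (k + 1)) / Y) *
        (3 * (1 + Real.log (k + 1))) := by gcongr
    refine h1.trans (le_of_eq ?_)
    rw [hΦd]
    ring
  have t8 : CM * ((A * (2 * k) : ℕ) + 1) / Y ≤ (2 * A * CM) * (Φ / Y) := by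
    have h1 : CM * ((A * (2 * k) : ℕ) + 1) / Y ≤ CM * (2 * A * Φ) / Y := by
      gcongr
      exact hAk.trans (by gcongr)
    refine h1.trans (le_of_eq ?_)
    ring
  have h5X : 600 * (D * (CG / k₀ + 4000 * (1 / 2) ^ (k₀ / 2000) +
        (CG * ((2 * k : ℕ) + 1) * (1 + Real.log (2 * k : ℕ)) + (2 * k : ℕ) * (3 * (A + 1))) /
          Y)) =
      600 * (D * (CG / k₀)) + 600 * (D * (4000 * (1 / 2) ^ (k₀ / 2000))) +
        600 * (D * ((CG * ((2 * k : ℕ) + 1) * (1 + Real.log (2 * k : ℕ)) +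
          (2 * k : ℕ) * (3 * (A + 1))) / Y)) := by ring
  have hGX : G * (Φ / Y) = 600 * D * (6 * CG + 6 * (A + 1)) * (Φ / Y) +
      5400 * (2 * A * CM) * (Φ / Y) + (2 * A * CM) * (Φ / Y) := by
    rw [hGd]
    ring
  linarith

/-- a scale below the logarithm is below a power -/
lemma k_pow {k : ℕ} {Y : ℝ} (h : (16 : ℝ) ^ k ≤ Y) : (k : ℝ) ≤ 2 * Y ^ (24 / 25 : ℝ) := by
  have h16 : (1 : ℝ) ≤ 16 ^ k := one_le_pow₀ (by norm_num)
  have hY1 : 1 ≤ Y := h16.trans h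
  have h1 : (k : ℝ) ≤ 4 ^ k := by
    have : k < 4 ^ k := Nat.lt_pow_self (by norm_num)
    exact_mod_cast this.le
  have h2 : (4 : ℝ) ^ k ≤ Y ^ (1 / 2 : ℝ) := by
    have h3 : ((4 : ℝ) ^ k) ^ 2 ≤ Y := by
      rw [← pow_mul, mul_comm, pow_mul]
      norm_num
      exact h
    rw [← Real.sqrt_eq_rpow]
    exact Real.le_sqrt_of_sq_le h3
  have h4 : Y ^ (1 / 2 : ℝ) ≤ Y ^ (24 / 25 : ℝ) :=
    Real.rpow_le_rpow_of_exponent_le hY1 (by norm_num)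
  have h5 : 0 ≤ Y ^ (24 / 25 : ℝ) := Real.rpow_nonneg (by linarith) _
  linarith

/-- EU1 -/
theorem pf_EU1 (hL : T_LVR) (hB : T_BSR) (hG : Pool.Agent.H6.G9.T_GMD) (hU : T_UBR) :
    Pool.Agent.H6.G9.T_EU1 := by
  obtain ⟨C₀, hC₀, hL⟩ := hL
  obtain ⟨B₁, C₁, hB₁, hC₁, hbsu⟩ := hB
  obtain ⟨B, hBB, hB2⟩ : ∃ B : ℕ, B₁ ≤ B ∧ 2 ≤ B := ⟨max B₁ 2, le_max_left _ _, le_max_right _ _⟩
  have hBr : (0 : ℝ) < B := by
    have : 0 < B := by omega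
    exact_mod_cast this
  refine ⟨B, by omega, ?_⟩
  intro ε' hε'
  obtain ⟨ε, hε, hε1, hεε⟩ : ∃ ε : ℝ, 0 < ε ∧ ε ≤ 1 ∧ ε ≤ ε' :=
    ⟨min ε' 1, lt_min hε' one_pos, min_le_right _ _, min_le_left _ _⟩
  obtain ⟨A, hA2, hA⟩ : ∃ A : ℕ, 2 ≤ A ∧ 480 ≤ ε * A :=
    ⟨⌈480 / ε⌉₊ + 2, by omega, by
      have h1 := Nat.le_ceil (480 / ε)
      rw [div_le_iff₀ hε] at h1
      push_cast
      linarith⟩
  have hA0 : (0 : ℝ) < A := by
    have : 0 < A := by omega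
    exact_mod_cast this
  have hε₁ : 0 < eS ε C₀ B A := by
    unfold eS
    positivity
  refine ⟨eS ε C₀ B A / (2 * C₁), by positivity, ?_⟩
  intro th hth hth1 R
  obtain ⟨CL, p₀, P, m₁, hCL, hpm, hlev⟩ := hL th hth hth1
  obtain ⟨CM, hCM, hmn⟩ := Pool.Agent.H84.GS.pf_MNG th hth hth1
  obtain ⟨CG₁, hCG₁, hg1⟩ := Pool.Agent.H84.GS.pf_GMQ th p₀ hth hth1
  obtain ⟨CG₂, hCG₂, hg2⟩ := hG th p₀ A hth hth1 hA2
  obtain ⟨mU, CU, hCU, hUB⟩ := hU P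
  obtain ⟨k₁, X₁, hX₁, hnear⟩ := nearW (W := fun lam m n => UBr lam P m n) hth hC₀ hCL hCM
    (add_pos hCG₁ hCG₂) hε hε1 hA2 hA hlev hmn (gmU hg1 hg2) B hB2 mU
    (fun lam m n hl hm => (hUB lam m n hm hl).1)
  obtain ⟨s₀, hs₀⟩ := hbsu R P (eS ε C₀ B A / 2) (by positivity)
  refine ⟨s₀ + k₁, ?_⟩
  intro s hs
  obtain ⟨X₀, hX₀⟩ := hs₀ s (by omega)
  refine ⟨max X₀ X₁, ?_⟩
  intro X lam hX hlam hb k₀ k hk₀ hk h16
  have hkX := k_pow h16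
  have h1 : k₁ ≤ k₀ := by
    have h2 : s ≤ B * s := Nat.le_mul_of_pos_left _ (by omega)
    omega
  have h2 := hnear X k₀ k lam ((le_max_right _ _).trans hX) hlam h1 hk hkX (by
    intro K c hc
    have h3 := hX₀ X K lam (eS ε C₀ B A / (2 * C₁)) c ((le_max_left _ _).trans hX) hlam
    rcases Nat.eq_zero_or_pos K with h0 | h0
    · subst h0
      rw [sum_range_zero]
      have h5 : 0 ≤ Real.log X := by
        have := Real.log_natCast_nonneg X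
        exact this
      positivity
    have h4 := h3 (by positivity) hb (by
      have h5 := (hc.1 0 h0).1
      have h6 : B₁ * s ≤ B * s := Nat.mul_le_mul_right _ hBB
      omega) (fun i hi => by
      have h5 := hc.2 i hi
      have h6 : B₁ * c i ≤ B * c i := Nat.mul_le_mul_right _ hBB
      omega) (fun i hi => by
      refine le_trans ?_ h16
      have h5 := (hc.1 i hi).2
      calc (4 : ℝ) ^ c i ≤ 4 ^ (2 * k) := pow_le_pow_right₀ (by norm_num) h5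
        _ = 16 ^ k := by rw [pow_mul]; norm_num)
    refine h4.trans (le_of_eq ?_)
    congr 1
    field_simp
    norm_num)
  linarith

end Pool.Agent.H81.G0
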